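import Pool.Agent.helper17.SG.Defs

/-!
# SpecS: stage 2 of project sg: (uniform delta over Teichmueller space)

Paper: /team-store/MP_2b8aea_STAGE2_helper3.md.  Definitions: Pool/Agent/helper17/SG/Defs.lean.
The matrix of `γ` is `M γ = [[a γ, b γ], [conj (b γ), conj (a γ)]]`, determinant `1`, defined up
to sign.  For a matrix `[[a, b], [conj b, conj a]]` put `‖M‖ = ‖a‖ + ‖b‖`; this is submultiplicative,
and the inverse of a matrix of determinant `1` is `[[conj a, -b], [-conj b, a]]`, of the same norm.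
-/

set_option autoImplicit false

open MeasureTheory Set Metric Filter Topology
open scoped ENNReal NNReal ComplexConjugate commutatorElement

namespace Pool.Agent.SG

/-- torsion free -/
def TF (Γ : Type) [Group Γ] : Prop := ∀ (g : Γ) (n : ℕ), 0 < n → g ^ n = 1 → g = 1

/-- not abelian -/
def NonAb (Γ : Type) [Group Γ] : Prop := ∃ x y : Γ, ¬ Commute x y

/-- maximal abelian subgroups are malnormal, commutation is transitive -/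
def CSA (Γ : Type) [Group Γ] : Prop :=
  (∀ x z : Γ, z ≠ 1 → Commute z (x * z * x⁻¹) → Commute x z) ∧
  (∀ x y z : Γ, z ≠ 1 → Commute x z → Commute y z → Commute x y)

section
variable {Γ : Type} [Group Γ]

/-- no nonempty finite subset of the circle is mapped into itself -/
def DiscRep.NoFin (A : DiscRep Γ) : Prop :=
  ∀ T : Set ℂ, T.Finite → T.Nonempty → T ⊆ circ → ¬ ∀ γ, ∀ ξ ∈ T, A.act γ ξ ∈ T

/-- distance of the matrix of `γ` from `1` and `-1` -/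
noncomputable def DiscRep.dev (A : DiscRep Γ) (γ : Γ) : ℝ :=
  min ‖A.a γ - 1‖ ‖A.a γ + 1‖ + ‖A.b γ‖

/-- `L γ = 2 log |a γ| = - log (1 - |γ 0|^2)` -/
noncomputable def DiscRep.L (A : DiscRep Γ) (γ : Γ) : ℝ := 2 * Real.log ‖A.a γ‖

/-- `A'` is the representation `A` conjugated by `[[p, q], [conj q, conj p]]` -/
def IsConj (p q : ℂ) (A A' : DiscRep Γ) : Prop :=
  (∀ γ, A'.a γ = p * (A.a γ * conj p - A.b γ * conj q)
      + q * (conj (A.b γ) * conj p - conj (A.a γ) * conj q)) ∧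
  (∀ γ, A'.b γ = p * (A.b γ * p - A.a γ * q) + q * (conj (A.a γ) * p - conj (A.b γ) * q))

end

/-- the Busemann function, `0` at `z = 0` -/
noncomputable def bus (ξ z : ℂ) : ℝ := Real.log (‖ξ - z‖ ^ 2 / (1 - ‖z‖ ^ 2))

/-- the cocycle `- log |g' ξ|` of `g = mob a b` -/
noncomputable def cyc (a b ξ : ℂ) : ℝ := 2 * Real.log ‖conj b * ξ + conj a‖

/-- its average over the circle -/
noncomputable def Phi (ν : Measure ℂ) (a b : ℂ) : ℝ := ∫ ξ, cyc a b ξ ∂ν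

/-- `ν` is a probability on the circle without atoms, `Φ` is at least `-1` on the disc -/
structure Nrm (ν : Measure ℂ) : Prop where
  prob : IsProbabilityMeasure ν
  supp : ν circᶜ = 0
  low : ∀ a b : ℂ, ‖a‖ ^ 2 - ‖b‖ ^ 2 = 1 → -1 ≤ Phi ν a b

section
variable {Γ : Type} [Group Γ]

/-- the drift -/
noncomputable def ell (A : DiscRep Γ) (W : Walk Γ) (ν : Measure ℂ) : ℝ :=
  ∑ s ∈ W.S, (W.μ s).toReal * Phi ν (A.a s) (A.b s)

/-- one step average of a real function -/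
noncomputable def Walk.avr (W : Walk Γ) (F : Γ → ℝ) : Γ → ℝ :=
  fun x => ∑ s ∈ W.S, (W.μ s).toReal * F (x * s)

end

/-! ## Part G: group theory from one discrete representation -/

/-- S01. Coefficients of products and inverses.
Proof. Let `a = a γ`, `b = b γ`, `a' = a δ`, `b' = b δ`, `a'' = a a' + b conj b'`,
`b'' = a b' + b conj a'` (so `‖a''‖^2 - ‖b''‖^2 = 1`, and for `‖z‖ ≤ 1`
`mob a b (mob a' b' z) = mob a'' b'' z`, the denominators do not vanish because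
`‖conj b * z + conj a‖ ≥ ‖a‖ - ‖b‖ > 0`). With `α = a (γ δ)`, `β = b (γ δ)` the field `map_mul` gives
`(α z + β) (conj b'' z + conj a'') = (a'' z + b'') (conj β z + conj α)` for `‖z‖ ≤ 1`; use
`z = 0, 1, -1` to compare the coefficients: `β conj a'' = b'' conj α`, `α conj b'' = a'' conj β`,
`α conj a'' + β conj b'' = a'' conj α + b'' conj β`. Put `κ = α / a''`. Then `α = κ a''`,
`β = conj κ b''`, and the last equation gives `(κ - conj κ) (‖a''‖^2 - ‖b''‖^2) = 0`, so `κ` is real,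
and `‖α‖^2 - ‖β‖^2 = 1` gives `κ^2 = 1`.
For `γ = δ = 1`: `act 1 (act 1 z) = act 1 z`, and `mob` is injective on the closed disc
(`mob a b z - mob a b w = (z - w) / ((conj b z + conj a) (conj b w + conj a))`), so `act 1 z = z`; for
`z = 0` this gives `b 1 = 0`, then `a 1 / conj (a 1) = 1`, so `a 1` is real with `‖a 1‖ = 1`.
Inverse: product formula for `γ * γ⁻¹ = 1`: `a a' + b conj b' = ε`, `a b' + b conj a' = 0`, solve the
linear system (`‖a‖^2 - ‖b‖^2 = 1`): `a' = ε conj a`, `b' = - ε b`. -/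
def S01_stmt : Prop := ∀ (Γ : Type) [Group Γ] (A : DiscRep Γ),
  (∀ γ δ, ∃ ε : ℂ, (ε = 1 ∨ ε = -1) ∧
    A.a (γ * δ) = ε * (A.a γ * A.a δ + A.b γ * conj (A.b δ)) ∧
    A.b (γ * δ) = ε * (A.a γ * A.b δ + A.b γ * conj (A.a δ))) ∧
  (∃ ε : ℂ, (ε = 1 ∨ ε = -1) ∧ A.a 1 = ε ∧ A.b 1 = 0) ∧
  (∀ γ, ∃ ε : ℂ, (ε = 1 ∨ ε = -1) ∧ A.a γ⁻¹ = ε * conj (A.a γ) ∧ A.b γ⁻¹ = -(ε * A.b γ))

/-- S02. Norms. Uses S01.
Proof. `‖b‖^2 = ‖a‖^2 - 1`. Product: `‖a a' + b conj b'‖ ≤ 2 ‖a‖ ‖a'‖`. `pt γ = mob a b 0 = b / conj a`.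
`kk γ = 1 - ‖b‖^2/‖a‖^2 = 1/‖a‖^2`. `1 - conj (b/conj a) * (b'/conj a') = (a conj a' - conj b * b') /
(a conj a')` and `a (γ⁻¹ δ) = ± (conj a * a' - b conj b')` whose norm is
`‖a conj a' - conj b b'‖`. `Discrete`: `‖act γ 0‖^2 = 1 - 1/‖a‖^2`, so `‖act γ 0‖ ≤ r` (`0 ≤ r < 1`)
iff `‖a‖ ≤ 1/√(1-r^2)`. -/
def S02_stmt : Prop := ∀ (Γ : Type) [Group Γ] (A : DiscRep Γ),
  (∀ γ, 1 ≤ ‖A.a γ‖) ∧ (∀ γ, ‖A.b γ‖ ≤ ‖A.a γ‖) ∧
  (∀ γ δ, ‖A.a (γ * δ)‖ ≤ 2 * ‖A.a γ‖ * ‖A.a δ‖) ∧ (∀ γ, ‖A.a γ⁻¹‖ = ‖A.a γ‖) ∧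
  (∀ γ, A.pt γ = A.b γ / conj (A.a γ)) ∧ (∀ γ, A.kk γ = 1 / ‖A.a γ‖ ^ 2) ∧
  (∀ γ δ, ‖A.a (γ⁻¹ * δ)‖ = ‖1 - conj (A.pt γ) * A.pt δ‖ * ‖A.a γ‖ * ‖A.a δ‖) ∧
  (A.Discrete ↔ ∀ K : ℝ, {γ | ‖A.a γ‖ ≤ K}.Finite)

/-- S03. Every element has a fixed point on the circle. Uses S01, S02.
Proof. `a = a γ`, `b = b γ`, `x = re a`, `p = im a`. A point `z` is fixed iff
`conj b z^2 + (conj a - a) z - b = 0` (denominator nonzero).
Case `x^2 ≥ 1`. If `b = 0` then `‖a‖ = 1`, so `p = 0` and `a = ±1`, all points are fixed. If `b ≠ 0`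
take `ξ = (i p + √(x^2-1)) / conj b`; `‖ξ‖^2 = (p^2 + x^2 - 1)/‖b‖^2 = 1`, and with `η = conj b ξ`,
`η^2 - 2 i p η = p^2 + x^2 - 1 = ‖b‖^2`.
Case `x^2 < 1`. There is a fixed point `z` with `‖z‖ < 1`: `z = 0` if `b = 0`; otherwise
`z = i (p - σ √(p^2 - ‖b‖^2)) / conj b` with `σ = 1` if `p ≥ 0`, `σ = -1` if `p < 0`
(`p^2 - ‖b‖^2 = 1 - x^2 > 0`; the product of the two roots `p ± √..` is `‖b‖^2`, the chosen one has
the smaller modulus, so `< ‖b‖`). Every power `g = γ^n` fixes `z`; from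
`1 - ‖g z‖^2 = (1 - ‖z‖^2)/‖conj b z + conj a‖^2` (coefficients of `g`) we get
`‖conj b z + conj a‖ = 1`, so `‖a g‖ (1 - ‖z‖) ≤ 1`. By S02 the set of all powers of `γ` is finite, so
`γ^m = γ^n` for some `m < n`, `γ^(n-m) = 1`, `γ = 1` (torsion free) and `act 1 ξ = ξ` (S01). -/
def S03_stmt : Prop := ∀ (Γ : Type) [Group Γ], TF Γ → ∀ A : DiscRep Γ, A.Discrete →
  ∀ γ, ∃ ξ ∈ circ, A.act γ ξ = ξ

/-- S04. Faithfulness. Uses S01, S02.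
Proof. If `dev γ = 0` then `a γ = ±1`, `b γ = 0`, and by S01 (induction) `‖a (γ^n)‖ = 1` for all `n`
(even `a (γ^n) = ±1`, `b (γ^n) = 0`), so the powers of `γ` form a finite set (S02) and `γ = 1` as in
S03. If three distinct points are fixed, the polynomial `conj b z^2 + (conj a - a) z - b` of degree
at most `2` has three roots, so `b = 0` and `a` is real, `a = ±1`, `dev γ = 0`. -/
def S04_stmt : Prop := ∀ (Γ : Type) [Group Γ], TF Γ → ∀ A : DiscRep Γ, A.Discrete →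
  (∀ γ, A.dev γ = 0 → γ = 1) ∧
  (∀ γ, ∀ ξ ∈ circ, ∀ η ∈ circ, ∀ ζ ∈ circ, ξ ≠ η → ξ ≠ ζ → η ≠ ζ →
    A.act γ ξ = ξ → A.act γ η = η → A.act γ ζ = ζ → γ = 1)

/-- S05. Stabilisers of boundary points are abelian. Uses S01, S02, S04.
Proof. For `γ` fixing `ξ` let `κ = κ γ = conj b ξ + conj a ≠ 0`; `a ξ + b = ξ κ`. Conjugating,
`conj κ = b conj ξ + a = (a ξ + b) conj ξ = κ`, so `κ` is real; `b = ξ (κ - a)`,
`1 = ‖a‖^2 - ‖κ - a‖^2 = 2 κ re a - κ^2`, so `re a = (κ^2+1)/(2κ)`. Let `p = im a`. For a product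
(S01, `ε = ±1`): `κ (γδ) = ε κ κ'`, `p (γδ) = ε (p/κ' + κ p')`
(`im (a a' + b conj b') = im (a a' + (κ-a)(κ'-conj a')) = 2 p re a' + κ p' - κ' p`).
So the pairs `(κ, p)` (up to a common sign) multiply like `[[κ, p], [0, 1/κ]]`.
Let `c = ⁅x, z⁆`: `κ c = ±1`, choose the sign so that `κ = 1`; then `re (a c) = 1`, `a c = 1 + i τ`,
`b c = - i τ ξ` (up to a common sign). If `τ = 0` then `dev c = 0` and `c = 1` by S04. Let `τ ≠ 0`.
Then `|κ x| ≠ 1` or `|κ z| ≠ 1` (if both are `±1` the formula gives `τ = 0`). Let `y` be `x`, `x⁻¹`,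
`z` or `z⁻¹` with `|κ y| < 1`. By the product formula `y^n c y^(-n)` has `a = ±(1 + i κ^(2n) τ)`,
`κ = κ y`. These elements are pairwise different (different `‖a‖`) and
`‖a‖^2 ≤ 1 + τ^2`, a contradiction to discreteness (S02). -/
def S05_stmt : Prop := ∀ (Γ : Type) [Group Γ], TF Γ → ∀ A : DiscRep Γ, A.Discrete →
  ∀ ξ ∈ circ, ∀ x z, A.act x ξ = ξ → A.act z ξ = ξ → Commute x z

/-- S06. Uses S01, S03, S04, S05.
Proof. For `z ≠ 1` let `Fix z` be the set of fixed points on the circle, nonempty (S03), with at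
most `2` elements (S04). Claim (*): if `x` maps `Fix z` into itself then `x` fixes every point of
`Fix z`. If `Fix z = {ξ}` clear. If `Fix z = {ξ, η}` and `x ξ = η` then `x η = ξ` (`x` is injective on
the circle), `x ≠ 1`, let `ζ` be a fixed point of `x` on the circle (S03), `ζ ≠ ξ, η`; `x^2` fixes
`ξ, η, ζ`, so `x^2 = 1` (S04), so `x = 1` (torsion free), contradiction.
(ii) If `x` commutes with `z` then `z (x ξ) = x (z ξ) = x ξ` for `ξ ∈ Fix z`, so `x` maps `Fix z`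
into itself and by (*) fixes `ξ ∈ Fix z`; the same for `y`; S05 gives `Commute x y`.
(i) `z' = x z x⁻¹ ≠ 1` commutes with `z`, so (as in (ii)) `z'` fixes every point of `Fix z`:
`Fix z ⊆ Fix z' = x (Fix z)`. These are finite sets with the same number of elements, so
`Fix z = x (Fix z)` and by (*) `x` fixes the points of `Fix z`. S05: `Commute x z`.
(`act (γδ) ξ = act γ (act δ ξ)` is the field `map_mul`; `act γ` maps the circle to itself.) -/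
def S06_stmt : Prop := ∀ (Γ : Type) [Group Γ], TF Γ → ∀ A : DiscRep Γ, A.Discrete → CSA Γ

/-- S07. No finite orbits on the circle. Uses S05, S06 (and S01).
Proof. Let `T` be finite, nonempty and mapped into itself by all `γ`. `act γ` is injective on the
circle, so it permutes `T`, and with `N = (card T)!` every `act (γ^N)` is the identity on `T`. Let
`ξ ∈ T` and `x, y` not commuting. `x^N` and `y^N` fix `ξ`, so they commute (S05). `x, y ≠ 1`, so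
`x^N, y^N ≠ 1`. `x` commutes with `x^N` and `y^N` commutes with `x^N`, so `x` commutes with `y^N`
(CSA (ii) with `z = x^N`); `y` commutes with `y^N`; so `x`, `y` commute (CSA (ii), `z = y^N`). -/
def S07_stmt : Prop := ∀ (Γ : Type) [Group Γ], TF Γ → NonAb Γ → ∀ A : DiscRep Γ, A.Discrete →
  A.NoFin

/-- S08. Pure group theory.
Proof. Induction on `n`, `n = 0` is `NonAb`. Let `x, y ∈ derivedSeries Γ n` not commute, `z = ⁅x, y⁆`,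
`z ≠ 1`, and `z' = x z x⁻¹`; both are in `derivedSeries Γ (n+1)` (normal subgroup). If `z, z'` commute,
then `x` commutes with `z` (CSA (i)), so with `x⁻¹ z = y x⁻¹ y⁻¹`, so `x⁻¹` commutes with
`y x⁻¹ y⁻¹`, so `y` commutes with `x⁻¹` (CSA (i), `x⁻¹ ≠ 1`), a contradiction. -/
def S08_stmt : Prop := ∀ (Γ : Type) [Group Γ], CSA Γ → NonAb Γ → ∀ n : ℕ,
  ∃ x ∈ derivedSeries Γ n, ∃ y ∈ derivedSeries Γ n, ¬ Commute x y

/-- S09. The deviation from `±1`. Uses S01.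
Proof. Work in the algebra of the pairs `(a, b)` = matrices `[[a, b], [conj b, conj a]]` with the
submultiplicative norm `‖a‖ + ‖b‖` (product `(a a' + b conj b', a b' + b conj a')`). If `ε = ±1`
is chosen with `‖a γ - ε‖` minimal, `M γ = ε (1 + E)` with `‖E‖ = dev γ`.
(1) `M (γδγ⁻¹) - ε' = M γ (M δ - ε') M γ⁻¹` up to sign. (2) `M δ = ε' (1 + F)`:
`(1+E)(1+F)(1+E)⁻¹(1+F)⁻¹ - 1 = (E F - F E) (1+E)⁻¹ (1+F)⁻¹` and `‖(1+E)⁻¹‖ = ‖1+E‖ ≤ 1 + ‖E‖` (the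
inverse of a matrix of determinant `1` has the same norm). (3) `(1+E)(1+F) - 1 = E + F + E F`.
(4) `M γ⁻¹ = ± (conj a, -b)`. -/
def S09_stmt : Prop := ∀ (Γ : Type) [Group Γ] (A : DiscRep Γ),
  (∀ γ δ, A.dev (γ * δ * γ⁻¹) ≤ 4 * ‖A.a γ‖ ^ 2 * A.dev δ) ∧
  (∀ γ δ, A.dev ⁅γ, δ⁆ ≤ 2 * A.dev γ * A.dev δ * (1 + A.dev γ) * (1 + A.dev δ)) ∧
  (∀ γ δ, A.dev (γ * δ) ≤ A.dev γ + A.dev δ + A.dev γ * A.dev δ) ∧
  (∀ γ, A.dev γ⁻¹ = A.dev γ)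

/-- S10. Zassenhaus (Margulis) lemma. Uses S02, S04, S06, S09.
Proof. `x 0 = w₂`, `x (n+1) = ⁅w₁, x n⁆`. By S09 (2) `dev (x (n+1)) ≤ dev (x n) / 2` (`2 * (1/8) * (9/8)^2
≤ 1/2`), so `dev (x n) ≤ 2^(-n)/8`. All `x n` satisfy `‖a‖ ≤ 2`, a finite set (S02), so the numbers
`dev (x n)` take finitely many values and one of them is `0`: `x n = 1` for some `n` (S04).
Descending induction: if `x (n+1)` commutes with `w₁` then `x n` commutes with `w₁`: trivial if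
`w₁ = 1`; otherwise `w₁⁻¹ x (n+1) = (x n) w₁⁻¹ (x n)⁻¹` commutes with `w₁`, hence with `w₁⁻¹`, and
CSA (i) with `z = w₁⁻¹` gives that `x n` commutes with `w₁⁻¹`. -/
def S10_stmt : Prop := ∀ (Γ : Type) [Group Γ], TF Γ → ∀ A : DiscRep Γ, A.Discrete →
  ∀ w₁ w₂, A.dev w₁ ≤ 1 / 8 → A.dev w₂ ≤ 1 / 8 → Commute w₁ w₂

/-! ## Part Q: compactness -/

/-- S11. Uniform discreteness. Uses S02, S06, S09, S10.
Proof. `D' = max D 1`, `c = 1/(32 D'^2)`. If `dev g < c` then `dev g ≤ 1/8` and for `s ∈ S`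
`dev (s g s⁻¹) ≤ 4 D'^2 c = 1/8`, so `g` commutes with `s g s⁻¹` (S10) and `s` commutes with `g` if
`g ≠ 1` (CSA (i)). The centraliser of `g` contains `S`, so it is everything (`W.gen`), and CSA (ii)
with `z = g` makes `Γ` abelian. Contradiction. -/
def S11_stmt : Prop := ∀ (Γ : Type) [Group Γ], TF Γ → NonAb Γ → ∀ (W : Walk Γ) (D : ℝ),
  ∃ c : ℝ, 0 < c ∧ ∀ A : DiscRep Γ, A.Discrete → (∀ s ∈ W.S, ‖A.a s‖ ≤ D) →
    ∀ g, g ≠ 1 → c ≤ A.dev g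

/-- S12. Packing. Uses S01, S02.
Proof. We may assume `K ≥ 1`. `M (g⁻¹ h) = ± M g⁻¹ M h = ± (1 + M g⁻¹ (M h - M g))`, so
`dev (g⁻¹ h) ≤ 2 K (‖a h - a g‖ + ‖b h - b g‖)` for `‖a g‖ ≤ K`. Cover the compact set
`{(a, b) : ‖a‖ ≤ K, ‖b‖ ≤ K}` of `ℂ × ℂ` by `N` balls of radius `r = c/(16 K)`
(`IsCompact.finite_cover_balls`, `N` depends only on `c`, `K`). Two elements with coefficients in the
same ball have `dev (g⁻¹ h) ≤ 2 K * 4 r < c`, so they are equal. So `g ↦` (a ball containing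
`(a g, b g)`) is injective on the set. -/
def S12_stmt : Prop := ∀ c K : ℝ, 0 < c → ∃ N : ℕ, ∀ (Γ : Type) [Group Γ] (A : DiscRep Γ),
  (∀ g, g ≠ 1 → c ≤ A.dev g) →
    {g | ‖A.a g‖ ≤ K}.Finite ∧ {g | ‖A.a g‖ ≤ K}.ncard ≤ N

/-- S13. Conjugation. (Uses S02 for the description of `Discrete`.)
Proof. Define `A'` by the formulas (`P M γ P⁻¹`, `P = [[p, q], [conj q, conj p]]`,
`P⁻¹ = [[conj p, -q], [-conj q, p]]`); the determinant is `1`; `mob` of a product of matrices is the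
composition (denominators do not vanish on the closed disc), in particular
`mob p q (mob (conj p) (-q) z) = z`, so `A'.act γ z = P (A.act γ (P⁻¹ z))` for `‖z‖ ≤ 1`, and `map_mul`
for `A'` follows from `map_mul` for `A`. `Discrete`: `‖a' γ‖ ≤ 4 ‖p‖^2 ‖a γ‖` and by symmetry
`‖a γ‖ ≤ 4 ‖p‖^2 ‖a' γ‖` (`‖q‖ ≤ ‖p‖`, `‖b γ‖ ≤ ‖a γ‖`). `Cocompact`: for `‖z‖ < 1` let `w = P⁻¹ z`
(`‖w‖ < 1`), `‖A.act γ w‖ ≤ r`; `A'.act γ z = P (A.act γ w)` lies in the compact set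
`P (closedBall 0 r)` of the open disc. `Stat`: `mob p q` is measurable, maps the circle to itself;
`(ν.map P) = ∑ μ s • (ν.map (A.act s)).map P = ∑ μ s • (ν.map P).map (A'.act s)` because
`P ∘ A.act s = A'.act s ∘ P` on the circle, which has full measure (`Measure.map_congr`). -/
def S13_stmt : Prop := ∀ p q : ℂ, ‖p‖ ^ 2 - ‖q‖ ^ 2 = 1 → ∀ (Γ : Type) [Group Γ] (A : DiscRep Γ),
  ∃ A' : DiscRep Γ, IsConj p q A A' ∧
    (∀ γ z, ‖z‖ ≤ 1 → A'.act γ (mob p q z) = mob p q (A.act γ z)) ∧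
    (A.Discrete → A'.Discrete) ∧ (A.Cocompact → A'.Cocompact) ∧
    (∀ (W : Walk Γ) (ν : Measure ℂ), Stat A W ν → Stat A' W (ν.map (mob p q)))

/-- S14. Limits of representations along an ultrafilter.
Proof. For each `g` the sequences `a_k g`, `b_k g` are eventually in a compact ball (`‖b‖ ≤ ‖a‖` since
`‖a‖^2 - ‖b‖^2 = 1`), so they converge along `U` (`IsCompact.ultrafilter_le_nhds` for the image
ultrafilter). The limits satisfy `‖a‖^2 - ‖b‖^2 = 1`, and `mob a b z` is continuous in `(a, b)` and `z`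
at points with `‖z‖ ≤ 1` (the denominator does not vanish); `mob` maps the closed disc to itself.
So `map_mul` passes to the limit. -/
def S14_stmt : Prop := ∀ (Γ : Type) [Group Γ] (U : Ultrafilter ℕ) (Ak : ℕ → DiscRep Γ) (K : Γ → ℝ),
  (∀ g, ∀ᶠ k in (U : Filter ℕ), ‖(Ak k).a g‖ ≤ K g) →
  ∃ A : DiscRep Γ, ∀ g, Tendsto (fun k => (Ak k).a g) U (𝓝 (A.a g)) ∧
    Tendsto (fun k => (Ak k).b g) U (𝓝 (A.b g))

/-- S15. Limits of stationary measures.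
Proof. The probability measures on the compact space `circ` form a compact space (instance in
`Mathlib/MeasureTheory/Measure/Prokhorov.lean`), so the measures `νk k` (restricted to the
subtype) converge weakly along `U`; let `ν` be the limit mapped back to `ℂ`. This gives the
convergence of `∫ f` for `f` continuous on the circle. Stationarity of `ν`: two finite measures on
the circle are equal if they give the same integral to every continuous function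
(`ext_of_forall_integral_eq_of_IsFiniteMeasure`). For `f` continuous on the circle
`∫ f ∂νk = ∑ μ s ∫ f (act_k s ξ) ∂νk`; `act_k s → act s` uniformly on the circle (the
coefficients converge, `‖conj b ξ + conj a‖ ≥ ‖a‖ - ‖b‖` is bounded below) and `f` is uniformly
continuous there, so `∫ f (act_k s ξ) ∂νk - ∫ f (act s ξ) ∂νk → 0`, and
`∫ f (act s ξ) ∂νk → ∫ f (act s ξ) ∂ν` because `f ∘ act s` is continuous on the circle. -/
def S15_stmt : Prop := ∀ (Γ : Type) [Group Γ] (W : Walk Γ) (U : Ultrafilter ℕ)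
  (Ak : ℕ → DiscRep Γ) (A : DiscRep Γ) (νk : ℕ → Measure ℂ),
  (∀ g, Tendsto (fun k => (Ak k).a g) U (𝓝 (A.a g))) →
  (∀ g, Tendsto (fun k => (Ak k).b g) U (𝓝 (A.b g))) →
  (∀ k, Stat (Ak k) W (νk k)) →
  ∃ ν : Measure ℂ, Stat A W ν ∧ ∀ f : ℂ → ℝ, ContinuousOn f circ →
    Tendsto (fun k => ∫ ξ, f ξ ∂(νk k)) U (𝓝 (∫ ξ, f ξ ∂ν))

/-- S16. Semicontinuity.
Proof. All measures live on the circle. (1) `F` closed: the functions
`f_n ξ = max 0 (1 - n * infDist ξ F)` (for `F` nonempty) are continuous, `≥ 1_F`, and decrease to `1_F`;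
`∫ f_n ∂ν → ν F` (dominated convergence), choose `n` with `∫ f_n ∂ν < ν F + ε/2`, then eventually
`νk F ≤ ∫ f_n ∂νk < ν F + ε`. (2) complements. (3) choose finitely many `x_j ∈ circ` such that
the balls `ball x_j (r - r')` cover the circle; `closedBall x r' ⊆ closedBall x_j r`; apply (1) to the
finitely many sets `closedBall x_j r`. -/
def S16_stmt : Prop := ∀ (U : Ultrafilter ℕ) (νk : ℕ → Measure ℂ) (ν : Measure ℂ),
  (∀ k, IsProbabilityMeasure (νk k) ∧ νk k circᶜ = 0) → IsProbabilityMeasure ν → ν circᶜ = 0 →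
  (∀ f : ℂ → ℝ, ContinuousOn f circ →
    Tendsto (fun k => ∫ ξ, f ξ ∂(νk k)) U (𝓝 (∫ ξ, f ξ ∂ν))) →
  (∀ F : Set ℂ, IsClosed F → ∀ ε : ℝ≥0∞, 0 < ε → ∀ᶠ k in (U : Filter ℕ), νk k F ≤ ν F + ε) ∧
  (∀ V : Set ℂ, IsOpen V → ∀ ε : ℝ≥0∞, 0 < ε → ∀ᶠ k in (U : Filter ℕ), ν V ≤ νk k V + ε) ∧
  (∀ (r r' : ℝ) (κ ε : ℝ≥0∞), 0 < r' → r' < r → 0 < ε → (∀ x ∈ circ, ν (closedBall x r) ≤ κ) →
    ∀ᶠ k in (U : Filter ℕ), ∀ x ∈ circ, νk k (closedBall x r') ≤ κ + ε)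

/-! ## Part P: properness of the drift -/

/-- S17. The cocycle. Uses S01 for (3).
Proof. (1) `‖a‖ - ‖b‖ ≤ ‖conj b ξ + conj a‖ ≤ ‖a‖ + ‖b‖ ≤ 2 ‖a‖` and
`‖a‖ - ‖b‖ = 1/(‖a‖ + ‖b‖) ≥ 1/(2‖a‖)`. (2) `conj (a q + b conj p) ξ + conj (a p + b conj q)
= (conj q ξ + conj p) (conj b (mob p q ξ) + conj a)`; the factors do not vanish. (3) from (2), the
sign does not matter. (4) for `‖z‖ < 1`, `a = 1/√(1-‖z‖^2)`, `b = - a z`:
`‖conj b ξ + conj a‖ = a ‖1 - conj z ξ‖ = ‖ξ - z‖/√(1-‖z‖^2)` for `‖ξ‖ = 1`. (5) `a γ⁻¹ = ± conj a`,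
`b γ⁻¹ = ∓ b`, `pt γ = b / conj a`, `‖a - conj b ξ‖ = ‖a‖ ‖ξ - b/conj a‖` and
`1 - ‖b/conj a‖^2 = 1/‖a‖^2`. -/
def S17_stmt : Prop :=
  (∀ a b ξ : ℂ, ‖a‖ ^ 2 - ‖b‖ ^ 2 = 1 → ‖ξ‖ = 1 → |cyc a b ξ| ≤ 2 * Real.log (2 * ‖a‖)) ∧
  (∀ a b p q ξ : ℂ, ‖a‖ ^ 2 - ‖b‖ ^ 2 = 1 → ‖p‖ ^ 2 - ‖q‖ ^ 2 = 1 → ‖ξ‖ = 1 →
    cyc (a * p + b * conj q) (a * q + b * conj p) ξ = cyc a b (mob p q ξ) + cyc p q ξ) ∧
  (∀ (Γ : Type) [Group Γ] (A : DiscRep Γ) (γ δ : Γ) (ξ : ℂ), ‖ξ‖ = 1 →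
    cyc (A.a (γ * δ)) (A.b (γ * δ)) ξ = cyc (A.a γ) (A.b γ) (A.act δ ξ) + cyc (A.a δ) (A.b δ) ξ) ∧
  (∀ z : ℂ, ‖z‖ < 1 → ∃ a b : ℂ, ‖a‖ ^ 2 - ‖b‖ ^ 2 = 1 ∧ ∀ ξ : ℂ, ‖ξ‖ = 1 → bus ξ z = cyc a b ξ) ∧
  (∀ (Γ : Type) [Group Γ] (A : DiscRep Γ) (γ : Γ) (ξ : ℂ), ‖ξ‖ = 1 →
    bus ξ (A.pt γ) = cyc (A.a γ⁻¹) (A.b γ⁻¹) ξ)

/-- S18. Additivity of the average. Uses S17.
Proof. For `s ∈ S` integrate S17 (3) with `δ = s` over `ν` and sum over `s` with the weights: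
`∑ μ s ∫ cyc (γ) (act s ξ) ∂ν = ∫ cyc (γ) ∂ν` by stationarity (`integral_map`, the function is
bounded and continuous on the circle by S17 (1), `∑ μ s = 1`, all `μ s` are finite). `a 1 = ±1`,
`b 1 = 0` gives `Φ = 0`. -/
def S18_stmt : Prop := ∀ (Γ : Type) [Group Γ] (A : DiscRep Γ) (W : Walk Γ) (ν : Measure ℂ),
  Stat A W ν → Phi ν (A.a 1) (A.b 1) = 0 ∧
  ∀ γ, W.avr (fun x => Phi ν (A.a x) (A.b x)) γ = Phi ν (A.a γ) (A.b γ) + ell A W ν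

/-- S19. Normalisation. Uses S17.
Proof. (i) There is `r ∈ (0, 1)` with `ν (closedBall x r) ≤ 1/4` for all `x ∈ circ`: otherwise there are
`x_n` with `ν (closedBall x_n (1/n)) > 1/4`, a limit point `x` of `x_n` has
`ν (closedBall x ρ) ≥ 1/4` for all `ρ > 0`, so `ν {x} ≥ 1/4`, but there are no atoms.
(ii) `Phi ν a b ≥ -C` with `C` independent of `(a, b)`: put `z = -b/a`, `‖z‖ < 1`, `Λ = 2 log ‖a‖ =
-log (1-‖z‖^2) ≥ 0`; `cyc a b ξ = 2 log ‖ξ - z‖ + Λ`. If `z = 0` then `cyc = 0`. For `ξ` outside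
`closedBall (z/‖z‖) r` we have `‖ξ - z‖ ≥ r/2`, so `cyc ≥ Λ - 2 log (2/r)`; for all `ξ`,
`‖ξ - z‖ ≥ 1 - ‖z‖ ≥ (1-‖z‖^2)/2`, so `cyc ≥ -Λ - 2 log 2`. Hence
`Phi ≥ (3/4)(Λ - 2 log (2/r)) - (1/4) (Λ + 2 log 2) - ... ≥ -2 log (2/r) - log 2`.
(iii) Let `m` be the infimum of `Phi ν p q` over all `(p, q)` of determinant `1` and choose `(p, q)`
with `Phi ν p q ≤ m + 1`. For `(a, b)` of determinant `1` S17 (2) gives
`Phi (ν.map (mob p q)) a b = ∫ cyc a b (mob p q ξ) ∂ν = Phi ν (a p + b conj q) (a q + b conj p) -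
Phi ν p q ≥ m - (m + 1) = -1`. (`mob p q` maps the circle to itself.) -/
def S19_stmt : Prop := ∀ ν : Measure ℂ, IsProbabilityMeasure ν → ν circᶜ = 0 → (∀ x, ν {x} = 0) →
  ∃ p q : ℂ, ‖p‖ ^ 2 - ‖q‖ ^ 2 = 1 ∧ Nrm (ν.map (mob p q))

/-- S20. Growth along the group.
Proof. `0 ≤ l`: by induction on `n`, `0 ≤ h x + n l` for all `x` (`h x + l = ∑ μ s h (x s) ≥ - n l`); let
`n → ∞`. The set of `g` for which there is `C ≥ 0` with `h (x g) ≤ C (h x + l)` for all such `h, l, x`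
contains `1` (`C = 1`), `s ∈ S` (`μ s h (x s) ≤ h x + l`, `μ s ≠ 0`, finite) and products
(`h (x g g') ≤ C' (h (x g) + l) ≤ C' (C (h x + l) + l) ≤ C' (C + 1) (h x + l)`), so it is everything
(`W.gen`, `Submonoid.closure_induction`). -/
def S20_stmt : Prop := ∀ (Γ : Type) [Group Γ] (W : Walk Γ) (g : Γ), ∃ C : ℝ, 0 ≤ C ∧
  ∀ (h : Γ → ℝ) (l : ℝ), (∀ x, 0 ≤ h x) → (∀ x, W.avr h x = h x + l) →
    0 ≤ l ∧ h g ≤ C * (h 1 + l)

/-- S21. The tripod inequality.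
Proof. `ε = ‖1 - conj x * y‖`, `t = - log ε`, `X = - log (1-‖x‖^2)`, `Y = - log (1-‖y‖^2)`,
`l₁ = t`, `l₂ = X - t`, `l₃ = Y - t`, all `≥ m > 0`; so `ε < 1`, `x ≠ 0`. `c = 1/(1/l₁+1/l₂+1/l₃) ≥ m/3`,
`c_i = c/l_i`, `c₁ + c₂ + c₃ = 1`; the weights of the statement are `c₂`, `c₃`. `z = (1-ε) x/‖x‖`.
Facts: `1 - ‖x‖ ≤ 1 - ‖x‖^2 = e^(-X) ≤ ε`, so `‖x - z‖ = ‖x‖ - (1 - ε) ≤ ε`; `1 - ‖z‖^2 = ε(2-ε) ≥ ε`, so
`bus ξ z ≤ 2 log ‖ξ - z‖ + t`. With `u = ‖ξ - x‖`, `v = ‖ξ - y‖`: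
`ε ≤ u + v` (`1 - conj x y = ξ (conj ξ - conj x) + conj x (ξ - y)`), `‖x - y‖ ≤ ‖1 - conj x y‖ = ε`
(`‖1 - conj x y‖^2 - ‖x - y‖^2 = (1-‖x‖^2)(1-‖y‖^2)`), `‖ξ - z‖ ≤ u + ε`, `‖ξ - z‖ ≤ v + 2 ε`,
`u ≥ 1 - ‖x‖ ≥ e^(-X)/2`, `v ≥ e^(-Y)/2`, `bus ξ x = 2 log u + X`, `bus ξ y = 2 log v + Y`.
Case A: `u, v ≥ ε/2`. `‖ξ - z‖ ≤ 3 u`, `≤ 5 v`, `≤ 2`. LHS - RHS `≥ c₂ (2 log ‖ξ-z‖ - 2 log 3 + X) +
c₃ (2 log ‖ξ-z‖ - 2 log 5 + Y) - 2 log ‖ξ-z‖ - t - m/3 + 5 ≥ - 2 c₁ log ‖ξ-z‖ + c₂ l₂ + c₃ l₃ - c₁ t - m/3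
+ 5 - 2 log 5 ≥ c - m/3 + 5 - 2 log 5 - 2 log 2 ≥ 0` (`log 10 < 2.31`; if `‖ξ - z‖ = 0` is impossible).
Case B: `u < ε/2`, so `v ≥ ε/2`, `‖ξ - z‖ ≤ 3ε/2`: RHS `≤ 2 log (3/2) - t + m/3 - 5`, LHS
`≥ c₂ (-X - 2 log 2) + c₃ (Y - 2 t - 2 log 2) ≥ - c₂ (l₂ + t) + c₃ (l₃ - t) - 2 log 2 = -(c₂+c₃) t -
2 log 2`, difference `≥ c₁ t - m/3 + 5 - 2 log 3 ≥ 0`.
Case C: `v < ε/2`, so `u ≥ ε/2`, `‖ξ - z‖ ≤ 5ε/2`: the same, difference `≥ c - m/3 + 5 - 2 log 5 ≥ 0`. -/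
def S21_stmt : Prop := ∀ (x y : ℂ) (m : ℝ), ‖x‖ < 1 → ‖y‖ < 1 → 0 < m →
  m ≤ -Real.log ‖1 - conj x * y‖ →
  m ≤ -Real.log (1 - ‖x‖ ^ 2) + Real.log ‖1 - conj x * y‖ →
  m ≤ -Real.log (1 - ‖y‖ ^ 2) + Real.log ‖1 - conj x * y‖ →
  ∃ (z : ℂ) (c d : ℝ), ‖z‖ < 1 ∧ 0 ≤ c ∧ 0 ≤ d ∧ c + d ≤ 1 ∧
    ∀ ξ : ℂ, ‖ξ‖ = 1 → bus ξ z + m / 3 - 5 ≤ c * bus ξ x + d * bus ξ y

/-- the Gromov product of `γ 0` and `δ 0` -/
noncomputable def gp {Γ : Type} [Group Γ] (L : Γ → ℝ) (γ δ : Γ) : ℝ :=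
  (L γ + L δ - L (γ⁻¹ * δ)) / 2

/-- S22. No large tripods. Uses S02, S17, S21.
Proof. Let `m` be the minimum on the left; we may assume `m > 0`. `x = pt γ`, `y = pt δ`:
`-log (1-‖x‖^2) = L γ` (S02, `kk`), `-log ‖1 - conj x y‖ = gp L γ δ` (S02). Take `z, c, d` of S21 and
integrate over `ν` (all functions are bounded and continuous on the circle, `ν` lives there):
by S17 (4) `∫ bus ξ z ∂ν = Phi ν a b ≥ -1` and by S17 (5) `∫ bus ξ x ∂ν = Phi ν (a γ⁻¹) (b γ⁻¹)`.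
So `-1 + m/3 - 5 ≤ c * Phi(γ⁻¹) + d * Phi(δ⁻¹) ≤ B`. -/
def S22_stmt : Prop := ∀ (Γ : Type) [Group Γ] (A : DiscRep Γ) (ν : Measure ℂ), Nrm ν →
  ∀ (γ δ : Γ) (B : ℝ), 0 ≤ B → Phi ν (A.a γ⁻¹) (A.b γ⁻¹) ≤ B → Phi ν (A.a δ⁻¹) (A.b δ⁻¹) ≤ B →
    min (gp A.L γ δ) (min (A.L γ - gp A.L γ δ) (A.L δ - gp A.L γ δ)) ≤ 3 * (B + 6)

/-- S23. Length functions of actions on a line (pure algebra).
Proof. `d g h = L (g⁻¹ h)`, `(g|h) = gp L g h`, both symmetric, `0 ≤ (g|h) ≤ L g`. Fix `s` with `L s > 0`.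
Put `f g = L g` if `(g|s) > 0` and `f g = - L g` otherwise. Claim `|f g - f h| = d g h`:
(a) `(g|s), (h|s) > 0`: by the 4 point condition `(g|h) > 0`, by the tripod condition `(g|h) = L g` or
`(g|h) = L h`, so `d g h = L g + L h - 2 (g|h) = |L g - L h|`. (b) `(g|s) > 0`, `(h|s) = 0`:
`(g|h) > 0` would give `(h|s) > 0`, so `(g|h) = 0`, `d g h = L g + L h`. (c) `(g|s) = (h|s) = 0`: if
`L g = 0` or `L h = 0` then `d g h = L h` resp. `L g` by the triangle inequality. If both are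
positive then `(g|h) > 0`: otherwise `d g h = L g + L h`, `d g s = L g + L s`, `d h s = L h + L s`, and
the pair `g⁻¹ h`, `g⁻¹ s` violates the tripod condition (`gp L (g⁻¹ h) (g⁻¹ s) = L g`,
`L (g⁻¹ h) - L g = L h`, `L (g⁻¹ s) - L g = L s`). As in (a), `d g h = |L g - L h|`.
So `f 1 = 0`, `f s = L s > 0`. For `g` define `e g = (f (g s) - f g) / f s = ±1` (`|f (g s) - f g| =
d (g s) g = L s`). Then `f (g h) = f g + e g * f h` for all `h`: `|f (g h) - f g| = |f h|` and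
`|f (g h) - f (g s)| = d h s = |f h - f s|`; if `f (g h) - f g = - e g f h` with `f h ≠ 0` then
`|f h + f s| = |f h - f s|`, impossible. Computing `f (g h s)` in two ways, `e (g h) = e g * e h`.
So `e = 1` on `derivedSeries Γ 1` (commutators), `f` is additive there, so `f = 0` and `e = 1` on
`derivedSeries Γ 2` (the set `{u | e u = 1, f u = 0}` is a subgroup which contains the commutators of
elements with `e = 1`). Finally `L (g⁻¹ u g) = d g (u g) = |f (u g) - f g| = |f u + e u f g - f g| = 0`. -/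
def S23_stmt : Prop := ∀ (Γ : Type) [Group Γ] (L : Γ → ℝ), L 1 = 0 → (∀ g, 0 ≤ L g) →
  (∀ g, L g⁻¹ = L g) → (∀ g h, L (g * h) ≤ L g + L h) →
  (∀ g h k, min (gp L g h) (gp L h k) ≤ gp L g k) →
  (∀ g h, min (gp L g h) (min (L g - gp L g h) (L h - gp L g h)) ≤ 0) → (∃ s, 0 < L s) →
  ∀ u ∈ derivedSeries Γ 2, ∀ g, L (g⁻¹ * u * g) = 0

/-- S24. The limit length function. Uses S01, S02, S18, S20, S22.
Proof. By `W.gen` and S02 for every `g` there are `n, C` with `L_k g ≤ n D k + C` for all `k` (product: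
`L (g h) ≤ L g + L h + 2 log 2`), `0 ≤ L_k g`; so `L_k g / D k` is eventually in a compact interval and
converges along `U`; call the limit `Linf g`. `Linf 1 = 0` (S01), inverse invariance, triangle
inequality: S02. 4 point condition: by S02 `gp L_k g h = - log ‖1 - conj (pt g) pt h‖`, and
`‖1 - conj x z‖ ≤ ‖1 - conj x y‖ + ‖1 - conj y z‖` for `x, y, z` in the disc
(`1 - conj x z = (1 - conj x y) + conj x (y - z)`, `‖y - z‖ ≤ ‖1 - conj y z‖`), so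
`gp L_k g k' ≥ min (..) (..) - log 2`; divide by `D k → ∞`. Tripods: put
`h x = Phi (νk) (a_k x) (b_k x) + 1 ≥ 0`, by S18 and S20 `Phi (x) ≤ C_x (1 + l_k)`, `l_k ≥ 0`,
with `C_x` independent of `k`; so with `B_k = C (1 + l_k)` (for `x = g⁻¹, h⁻¹`) S22 gives
`min (..) ≤ 3 (B_k + 6)`; divide by `D k`, `B_k / D k → 0`. `Linf s = 1`. -/
def S24_stmt : Prop := ∀ (Γ : Type) [Group Γ] (W : Walk Γ) (U : Ultrafilter ℕ)
  (Ak : ℕ → DiscRep Γ) (νk : ℕ → Measure ℂ) (D : ℕ → ℝ) (s : Γ),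
  (∀ k, Stat (Ak k) W (νk k)) → (∀ k, Nrm (νk k)) → Tendsto D U atTop →
  (∀ k, ∀ t ∈ W.S, (Ak k).L t ≤ D k) → s ∈ W.S → (∀ᶠ k in (U : Filter ℕ), (Ak k).L s = D k) →
  Tendsto (fun k => ell (Ak k) W (νk k) / D k) U (𝓝 0) →
  ∃ Linf : Γ → ℝ, (∀ g, Tendsto (fun k => (Ak k).L g / D k) U (𝓝 (Linf g))) ∧
    Linf 1 = 0 ∧ (∀ g, 0 ≤ Linf g) ∧ (∀ g, Linf g⁻¹ = Linf g) ∧
    (∀ g h, Linf (g * h) ≤ Linf g + Linf h) ∧
    (∀ g h k, min (gp Linf g h) (gp Linf h k) ≤ gp Linf g k) ∧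
    (∀ g h, min (gp Linf g h) (min (Linf g - gp Linf g h) (Linf h - gp Linf g h)) ≤ 0) ∧
    Linf s = 1

/-- S25. Almost commuting elements at the midpoint of `[0, s 0]`. Uses S01, S02.
Proof. Write `a s = C e^(iα)`, `b s = S e^(iβ)` with `C = ‖a s‖`, `S = ‖b s‖`, `C = cosh (D/2)`,
`S = sinh (D/2)`, `D ≥ 0`; `e^(D/2) = C + S ≥ e^(L s / 2)`. With `θ₁ = (α+β)/2`, `θ₂ = (α-β)/2`,
`R θ = (e^(iθ), 0)` and `H T = (cosh (T/2), sinh (T/2))` we have `M s = R θ₁ * H D * R θ₂`.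
Let `P = R θ₁ * H (D/2)` and `(p, q)` the coefficients of `P⁻¹`; the conjugated matrices are
`P⁻¹ M P`. For `u` put `R(-θ₁) M u R θ₁ = (α', β')`, `x = re α'`, `p' = im α'`, `y = re β'`,
`q' = im β'`; `‖α'‖ = ‖a u‖ ≤ e^(η/2)`, `‖β'‖ ≤ e^(η/2)`. A computation:
`(H T)⁻¹ (α', β') H T = (x + i (p' cosh T + q' sinh T), y + i (p' sinh T + q' cosh T))`.
For `T = D` this is `± R θ₂ M (s⁻¹ u s) R(-θ₂)`, whose entries have modulus `≤ e^(η/2)`, so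
`|p' + q'| e^D ≤ 2 e^(η/2)`. For `T = D/2`: the imaginary parts are
`(p'+q') e^(D/2)/2 ± (p'-q') e^(-D/2)/2`, at most `2 e^((η-D)/2)` in modulus. So
`U = P⁻¹ M u P = (x + i e₁, y + i e₂)` with `|x|, |y| ≤ e^(η/2)`, `|e_i| ≤ 2 e^((η-D)/2)`,
`‖U‖ ≤ 6 e^(η/2)`; the same for `V = P⁻¹ M v P`. `U V - V U = (2 i im (b conj b'), 2 i (b' im a - b im a'))`
has norm at most `8 e^(η-D/2) + 48 e^(η-D/2)`; `±M' ⁅u, v⁆ - 1 = (U V - V U) (V U)⁻¹`, and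
`‖(V U)⁻¹‖ = ‖V U‖ ≤ 36 e^η`. (`η ≥ 0` because `L u ≥ 0`.) -/
def S25_stmt : Prop := ∀ (Γ : Type) [Group Γ] (A : DiscRep Γ) (s : Γ),
  ∃ p q : ℂ, ‖p‖ ^ 2 - ‖q‖ ^ 2 = 1 ∧ ∀ A' : DiscRep Γ, IsConj p q A A' →
    ∀ (u v : Γ) (η : ℝ), A.L u ≤ η → A.L (s⁻¹ * u * s) ≤ η → A.L v ≤ η →
      A.L (s⁻¹ * v * s) ≤ η → A'.dev ⁅u, v⁆ ≤ 3000 * Real.exp (2 * η - A.L s / 2)

/-- S26. Uses S09.
Proof. `{w | dev_k w → 0}` is a subgroup (S09 (3), (4); `dev ≥ 0`; `dev 1 = 0` follows from (3), (4)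
or S01: use `dev (g g⁻¹)`; it contains the commutators by hypothesis) and
`derivedSeries Γ (n+1) = ⁅derivedSeries Γ n, derivedSeries Γ n⁆` is generated by them. -/
def S26_stmt : Prop := ∀ (Γ : Type) [Group Γ] (U : Ultrafilter ℕ) (Ak : ℕ → DiscRep Γ) (n : ℕ),
  (∀ u ∈ derivedSeries Γ n, ∀ v ∈ derivedSeries Γ n,
    Tendsto (fun k => (Ak k).dev ⁅u, v⁆) U (𝓝 0)) →
  ∀ w ∈ derivedSeries Γ (n + 1), Tendsto (fun k => (Ak k).dev w) U (𝓝 0)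

/-- S27. Properness of the drift. Uses S06, S08, S10, S13, S23, S24, S25, S26.
Proof. Suppose `l_k / D_k → 0`. `S` is finite and nonempty and every `k` has some `s ∈ S` with
`L_k s = D k`, so some `s ∈ S` works `U`-eventually. Take `Linf` of S24; S23 gives `Linf u = 0` and
`Linf (s⁻¹ u s) = 0` for `u ∈ derivedSeries Γ 2`. Let `p_k, q_k` be as in S25 for `A_k, s`, and `A'_k` the
conjugated representation (S13), discrete. For `u, v ∈ derivedSeries Γ 2` put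
`η_k = ` max of the four numbers `L_k u, L_k (s⁻¹us), L_k v, L_k (s⁻¹vs)`; `η_k / D_k → 0`, so
`2 η_k - D_k/2 ≤ - D_k/4` eventually and `A'_k.dev ⁅u,v⁆ → 0`. By S26 (`n = 2`) `A'_k.dev w → 0` for
all `w ∈ derivedSeries Γ 3`. Take `w₁, w₂` there which do not commute (S08, CSA from S06). For some
`k` both deviations are `≤ 1/8`; S10 for `A'_k`: contradiction. -/
def S27_stmt : Prop := ∀ (Γ : Type) [Group Γ], TF Γ → NonAb Γ → ∀ (W : Walk Γ) (U : Ultrafilter ℕ)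
  (Ak : ℕ → DiscRep Γ) (νk : ℕ → Measure ℂ) (D : ℕ → ℝ), (∀ k, (Ak k).Discrete) →
  (∀ k, Stat (Ak k) W (νk k)) → (∀ k, Nrm (νk k)) → Tendsto D U atTop →
  (∀ k, (∀ t ∈ W.S, (Ak k).L t ≤ D k) ∧ ∃ s ∈ W.S, (Ak k).L s = D k) →
  ¬ Tendsto (fun k => ell (Ak k) W (νk k) / D k) U (𝓝 0)

/-! ## Part D: the dimension is at most log |S| / l -/

/-- S28. Positive probability of large displacement. Uses S02, S17, S18.
Proof. `T = W.avr` is linear, monotone, `T 1 = 1`; `T^[n] F 1` only depends on `F` on the products of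
`n` elements of `S`. By S18 and induction `T^[n] Φ 1 = n l` (`Φ x = Phi ν (a x) (b x)`, `Φ 1 = 0`, all
`x`: `T^[n] Φ x = Φ x + n l`). `Φ x ≤ G x := 2 log (2 ‖a x‖)` (S17 (1)). With
`D' = max_s 2 log (2 ‖a s‖) > 0` we have `G x ≤ n D'` for every product `x` of `n ≥ 1` elements of `S`
(`2‖a (g h)‖ ≤ (2‖a g‖)(2‖a h‖)`); `G x ≤ n (l - ε) + n D' 1[G x ≥ n (l-ε)]` on these `x`. So
`n l ≤ n (l - ε) + n D' q_n`, `q_n ≥ ε / D'` for `n ≥ 1`; for `n = 0` `q_0 = 1`. Take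
`η = min 1 (ε/D')`. -/
def S28_stmt : Prop := ∀ (Γ : Type) [Group Γ] (A : DiscRep Γ) (W : Walk Γ) (ν : Measure ℂ),
  Stat A W ν → ∀ ε : ℝ, 0 < ε → ε < ell A W ν → ∃ η : ℝ, 0 < η ∧ ∀ n : ℕ,
    η ≤ (W.avr^[n]) (Set.indicator
      {x | (n : ℝ) * (ell A W ν - ε) ≤ 2 * Real.log (2 * ‖A.a x‖)} 1) 1

/-- S29. Image of the complement of a ball around the repelling point. Uses S01, S02.
Proof. `g = act x`, `a, b` its coefficients, `ρ = -(b/a)/‖b/a‖` (`ρ = 0` if `b = 0`). For `ξ` on the circle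
with `‖ξ - ρ‖ ≥ r`: `‖conj b ξ + conj a‖ = ‖a ξ + b‖ = ‖a‖ ‖ξ + b/a‖ ≥ ‖a‖ r / 2`, because
`‖ξ - ρ‖ ≤ 2 ‖ξ - τ ρ‖` for `0 ≤ τ ≤ 1` (`‖ρ - τρ‖ = 1 - τ ≤ ‖ξ - τρ‖`); if `b = 0` use
`‖ξ + b/a‖ = 1 ≥ r/2`. `‖g ξ - g η‖ = ‖ξ - η‖ / (‖conj b ξ + conj a‖ ‖conj b η + conj a‖)
≤ 2 * 4 / (‖a‖^2 r^2)`. The set `K` is compact (closed subset of the circle), `g` is continuous on the
circle and injective there (`act x⁻¹ (act x ξ) = ξ`), so the preimage of `g '' K` in the circle is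
`K`. -/
def S29_stmt : Prop := ∀ (Γ : Type) [Group Γ] (A : DiscRep Γ) (x : Γ) (r : ℝ), 0 < r → r ≤ 1 →
  ∃ ρ : ℂ, (ρ ∈ circ ∨ ρ = 0) ∧ ∃ K : Set ℂ, K = A.act x '' (circ \ ball ρ r) ∧ IsCompact K ∧
    (∀ ξ ∈ K, ∀ η ∈ K, ‖ξ - η‖ ≤ 8 / (r ^ 2 * ‖A.a x‖ ^ 2)) ∧
    (∀ ξ ∈ circ, A.act x ξ ∈ K ↔ ξ ∉ ball ρ r)

/-- S30. Dimension of a limsup set.
Proof. Let `t > 0`, `log κ < lam' t`. For every `N` the set is covered by the members of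
the families `n ≥ N`, of diameter `≤ C e^(-lam' n) → 0`, and the sum of `diam^t` is at most
`∑_{n ≥ N} κ^n C^t e^(-lam' n t) = C^t ∑_{n≥N} (κ e^(-lam' t))^n → 0` (`κ e^(-lam' t) < 1`). So
`μH[t] B = 0` (`hausdorffMeasure_le_liminf_tsum` or directly from the definition; the families can be
indexed by `Σ n, F n`) and `dimH B ≤ t` (`dimH_le_of_hausdorffMeasure_ne_top`). -/
def S30_stmt : Prop := ∀ (E : ℕ → Set ℂ) (κ C lam' t : ℝ), 1 ≤ κ → 0 < C → 0 < lam' → 0 < t →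
  Real.log κ < lam' * t →
  (∀ n, ∃ F : Finset (Set ℂ), (F.card : ℝ) ≤ C * κ ^ n ∧ E n ⊆ ⋃ I ∈ F, I ∧
    ∀ I ∈ F, ∀ ξ ∈ I, ∀ η ∈ I, ‖ξ - η‖ ≤ C * Real.exp (-(lam' * n))) →
  dimH (⋂ N, ⋃ n ≥ N, E n) ≤ ENNReal.ofReal t

/-- S31. Dimension bound. Uses S02, S28, S29, S30.
Proof. `t l > log |S|`; choose `ε > 0` with `t (l - ε) > log |S|`, `ε < l`. As in S19 (i) there is
`r ∈ (0,1]` with `ν (closedBall x r) ≤ 1/2` for all `x ∈ circ`. `G_n` = the set of the products `x` of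
`n` elements of `S` with `n (l - ε) ≤ 2 log (2‖a x‖)`, a finite set with at most `|S|^n` elements;
`K_x` from S29 for `x ∈ G_n`, of diameter at most `8/(r^2‖a x‖^2) ≤ 32 e^(-n(l-ε))/r^2`.
`E_n = ⋃_{x ∈ G_n} K_x`, `B = ⋂_N ⋃_{n ≥ N} E_n`, `dimH B ≤ t` by S30 (`κ = |S|`, `lam' = l - ε`).
`x ↦ ν (act x ⁻¹' E_n)` is harmonic (stationarity; `act (x s) ξ = act x (act s ξ)` on the circle), so
`ν (E_n) = avr^[n] (x ↦ (ν (act x ⁻¹' E_n)).toReal) 1 ≥ (1/2) avr^[n] 1_{G_n} 1 ≥ η/2`, since for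
`x ∈ G_n` `ν (act x ⁻¹' K_x) = ν (circ \ ball ρ r) ≥ 1/2`. (If `ρ = 0` then the ball does not meet the
circle.) `ν B = lim_N ν (⋃_{n≥N} E_n) ≥ η/2 > 0`. -/
def S31_stmt : Prop := ∀ (Γ : Type) [Group Γ] (A : DiscRep Γ) (W : Walk Γ) (ν : Measure ℂ),
  Stat A W ν → (∀ x, ν {x} = 0) → ∀ t : ℝ, 0 < t → 0 < ell A W ν →
    Real.log W.S.card < ell A W ν * t →
    ∃ B : Set ℂ, MeasurableSet B ∧ 0 < ν B ∧ dimH B ≤ ENNReal.ofReal t

/-- S32. Transport of dimension by a Moebius map.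
Proof. `mob p q` maps the circle to itself, with inverse `mob (conj p) (-q)` there; it is Lipschitz
on the circle with constant `1/(‖p‖-‖q‖)^2`. Let `B' = B ∩ circ`, `B₁ = {ξ ∈ circ | mob p q ξ ∈ B}`,
measurable, `ν B₁ = ν.map (mob p q) B = 1`, and `B₁ = mob (conj p) (-q) '' B'`, so
`dimH B₁ ≤ dimH B' ≤ dimH B` (`LipschitzOnWith.dimH_image_le`). -/
def S32_stmt : Prop := ∀ (p q : ℂ), ‖p‖ ^ 2 - ‖q‖ ^ 2 = 1 → ∀ ν : Measure ℂ,
  IsProbabilityMeasure ν → ν circᶜ = 0 → ∀ B : Set ℂ, MeasurableSet B →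
    (ν.map (mob p q)) B = 1 → ∃ B₁ : Set ℂ, MeasurableSet B₁ ∧ ν B₁ = 1 ∧ dimH B₁ ≤ dimH B

/-- S33. Saturation.
Proof. `Γ` is countable (generated as a monoid by a finite set). `B' = ⋃_γ {ξ ∈ circ | act γ ξ ∈ B}`,
measurable, `act γ ⁻¹' B' ∩ circ = B'`. Each set is `act γ⁻¹ '' (B ∩ circ)`, and `act γ⁻¹` is Lipschitz
on the circle, so `dimH B' ≤ dimH B` (`dimH_iUnion`). `B ∩ circ ⊆ B'` so `ν B' > 0`. If `ν B' < 1` let
`ν' = (ν B'ᶜ)⁻¹ • ν.restrict B'ᶜ`; it is a probability on the circle and stationary: for measurable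
`E`, `ν (E ∩ B'ᶜ) = ∑ μ s ν (act s ⁻¹' (E ∩ B'ᶜ)) = ∑ μ s ν (act s ⁻¹' E ∩ B'ᶜ)` (up to null sets
outside the circle). By uniqueness `ν' = ν`, but `ν' B' = 0 < ν B'`. So `ν B' = 1`. -/
def S33_stmt : Prop := ∀ (Γ : Type) [Group Γ] (A : DiscRep Γ) (W : Walk Γ) (ν : Measure ℂ),
  Stat A W ν → (∀ ν' : Measure ℂ, Stat A W ν' → ν' = ν) → ∀ B : Set ℂ, MeasurableSet B → 0 < ν B →
    ∃ B' : Set ℂ, MeasurableSet B' ∧ ν B' = 1 ∧ dimH B' ≤ dimH B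

end Pool.Agent.SG
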