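import Pool.Agent.helper3.SG.SpecS
import Pool.Agent.helper17.SG.SpecM
import Pool.Agent.helper24.SG.SpecD
import Pool.Agent.helper56.SG.SpecG
import Pool.Agent.helper68.SG.SpecK
import Pool.Agent.helper68.SG.SpecT

/-!
# SpecN: limits that are not cocompact, assembly (project sg:)
-/

set_option autoImplicit false

open MeasureTheory Set Metric Filter Topology
open scoped ENNReal NNReal ComplexConjugate commutatorElement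

namespace Pool.Agent.SG

/-! ## The outputs of stage 1 which are used here -/

/-- HUB (from part R, R3): upper bound for the hitting probabilities. -/
def HUB_stmt : Prop := ∀ (Γ : Type) [Group Γ] (A : DiscRep Γ) (W : Walk Γ) (ν : Measure ℂ),
  StdD A W ν → ν ≪ lam → ∃ C : ℝ, 0 < C ∧ ∀ x, W.hit 1 x ≤ ENNReal.ofReal (C * A.kk x)

/-- REG (from part R, R7): Hoelder density in the mean. -/
def REG_stmt : Prop := ∀ (Γ : Type) [Group Γ] (A : DiscRep Γ) (W : Walk Γ) (ν : Measure ℂ),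
  Std A W ν → ν ≪ lam → ∃ (f : ℂ → ℝ) (C a : ℝ), RegDens ν f C a

/-! ## N: not cocompact implies singular -/

/-- N01. Large holes of the orbit. Uses B01, B02, B03, B14.
Proof. Let `ρ = 1 - τ`. Not cocompact: there is `z₀`, `‖z₀‖ < 1`, with `ρ < ‖act γ z₀‖` for all `γ`.
If `‖z‖ ≤ ‖z₀‖` and `‖act γ z‖ ≤ ρ` then by B02 (2) `kk γ (1-‖z‖^2) = (1-‖act γ z‖^2)‖1 - conj q z‖^2
≥ (1-ρ^2)(1-‖z₀‖)^2`, so `γ` is in the finite set `F = {γ | (1-ρ^2)(1-‖z₀‖)^2 ≤ kk γ} ∪ {1}` (B14).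
The set of `θ ∈ [0,1]` such that `‖act γ (θ z₀)‖ ≤ ρ` for some `γ ∈ F` is compact (finite union of
closed sets, `act γ` is continuous) and contains `0`; let `θ` be its maximum; `θ < 1`. For `γ ∈ F` and
`θ' > θ` `‖act γ (θ' z₀)‖ > ρ`, so `‖act γ (θ z₀)‖ ≥ ρ` by continuity; for `γ ∉ F` also. Let `γ₀ ∈ F` have
`‖act γ₀ (θ z₀)‖ ≤ ρ`, so `= ρ`, and `z = act γ₀ (θ z₀)`. Then `‖z‖ = ρ` and
`‖act γ z‖ = ‖act (γ γ₀) (θ z₀)‖ ≥ ρ` for all `γ`. Put `u = z/ρ`. For `γ` use B02 (2) for `γ⁻¹` and `z`: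
`(1-‖act γ⁻¹ z‖^2) ‖1 - conj (pt γ) z‖^2 = kk γ (1-ρ^2)` (`kk γ⁻¹ = kk γ`) and `1-‖act γ⁻¹ z‖^2 ≤ 1-ρ^2`,
so `kk γ ≤ ‖1 - conj (pt γ) z‖^2`, and `‖1 - ρ conj (pt γ) u‖ ≤ (1-ρ) + ρ ‖1 - conj (pt γ) u‖ ≤
τ + ‖u - pt γ‖`. -/
def N01_stmt : Prop := ∀ (Γ : Type) [Group Γ] (A : DiscRep Γ), A.Discrete → ¬ A.Cocompact →
  ∀ τ : ℝ, 0 < τ → τ < 1 → ∃ u : ℂ, ‖u‖ = 1 ∧ ∀ γ, A.kk γ ≤ (τ + ‖u - A.pt γ‖) ^ 2

/-- N02. Small mass behind a hole. Uses P05, P08, B01, B03, B04, B09, B10, B14, B18, M01, M03, M04.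
Proof. Let `M` be from B10 for the finset `S₀ = S⁻¹` (image of `S` under inversion), `C₉` from B09 for
this `M`. Let `τ, u, x` be as in the statement, `I = circ ∩ closedBall u (τ/2)`, `E = act x⁻¹ ⁻¹' I`,
`D = {y | τ ≤ Hu u (x⁻¹ y)}`, `h y = nux y E`, harmonic and bounded by `1` (M01).
(a) `1 ∈ D`: `Hu u x⁻¹ ≥ ‖u - pt x⁻¹‖/2 ≥ c/2 ≥ τ` (`‖u + ·‖ ≤ 2`).
(b) `{y ∈ D | ε < h y}` is finite for `ε > 0`: let `y = x q ∈ D`. For `ξ ∈ I` `‖ξ - pt q‖ ≥ τ/8`: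
otherwise `‖u - pt q‖ < 5τ/8 < 1/2`, `‖u + pt q‖ > 3/2`, `Hu u q < τ`. `h y = nux (x q) E =
ν (act q ⁻¹' I)` up to null sets (`act x⁻¹ (act (x q) η) = act q η` on the circle), and for
`η ∈ circ` with `act q η ∈ I` B04 (1) gives `‖η - pt q⁻¹‖ = kk q/‖act q η - pt q‖ ≤ 8 kk q/τ`. By M03,
M04 there is `r > 0` with `ν (closedBall z r) ≤ ε` for all `z`; so `ε < h y` implies `8 kk q/τ > r`:
finitely many `q` (B14).
(c) P08: `ν E = h 1 = ∑' w, exi D 1 w * h w ≤ ∑' w, exi D 1 w`. If `exi D 1 w ≠ 0` then by P05 (3)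
`w ∉ D` and (`w ≠ 1` by (a)) `w = y s`, `y ∈ D`, `s ∈ S`. Put `p = x⁻¹ w`, `q = x⁻¹ y = p s⁻¹`:
`Hu u p < τ ≤ Hu u q`, `Hu u p ≤ 1`, and B10 gives `|Hu u q - Hu u p| ≤ M kk p`, so
`|Hu u p - τ| ≤ M kk p`. By B18 (3) `‖u - pt p‖ ≤ 2 Hu u p ≤ 2 τ`, so `kk p ≤ (3τ)^2 = (9 τ) τ` (hole).
Also `‖1 - conj (pt x⁻¹) pt p‖ ≥ ‖1 - conj (pt x⁻¹) u‖ - ‖u - pt p‖ ≥ c - 2τ ≥ c/2`
(`‖1 - conj z u‖ = ‖u - z‖` for `‖u‖ = 1`), so by B03 (7) `kk (x p) ≤ (4/c^2) kk x kk p`.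
(P05: `exi D 1 w ≤ hit 1 w ≤ ofReal (C kk w)`.) Hence with B09 (`t = τ`, `η = 9 τ`)
`ν E ≤ ∑' p, 1_{layer} ofReal (C (4/c^2) kk x kk p) ≤ ofReal (C (4/c^2) kk x * C₉ * 9 τ * τ)`. -/
def N02_stmt : Prop := ∀ (Γ : Type) [Group Γ] (A : DiscRep Γ) (W : Walk Γ) (ν : Measure ℂ),
  StdD A W ν → ∀ C : ℝ, 0 < C → (∀ x, W.hit 1 x ≤ ENNReal.ofReal (C * A.kk x)) →
  ∀ c : ℝ, 0 < c → c ≤ 1 → ∃ C₁ : ℝ, 0 < C₁ ∧ ∀ (τ : ℝ) (u : ℂ) (x : Γ), 0 < τ → τ ≤ c / 4 →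
    ‖u‖ = 1 → (∀ γ, A.kk γ ≤ (τ + ‖u - A.pt γ‖) ^ 2) → c ≤ ‖u - A.pt x⁻¹‖ →
    ν (A.act x⁻¹ ⁻¹' (circ ∩ closedBall u (τ / 2))) ≤ ENNReal.ofReal (C₁ * A.kk x * τ ^ 2)

/-- N03. Absolutely continuous implies cocompact. Uses B01, B03, B05, B13, B14, B15, B16, M11, N01, N02.
Proof. Suppose `A` is not cocompact. `C, c₀` and `con = con A W M C c₀` from M11 with `ε = 1/2`, so
`ν con ≥ 1/2`. `f = ν.rnDeriv lam`, `ν = lam.withDensity f`. There is a natural number `m` such that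
`N = {ξ ∈ con | 1/(m+1) ≤ f ξ}` has `lam N > 0` (otherwise `f = 0` `lam`-a.e. on `con` and
`ν con = 0`); let `δ = 1/(m+1)`. B13: `T₀`, `c` (may assume `c ≤ 1`), `C₁` from N02 (with HUB) for
this `c`. Choose `τ ≤ c/4`, `τ < 1`, `32 C₁ τ ≤ δ/2`, and `u` from N01. We apply B16 to `m = lam`, `N`: let
`η ∈ N`. For infinitely many `n` there is `w` with `kk w ≤ 2^(-n)`, `‖η - pt w‖ ≤ C kk w`. B13 with
`z = u` and the second point `pt w⁻¹`: `t ∈ T₀` with `c ≤ ‖1 - conj u * act t (pt w⁻¹)‖ = ‖u - pt (t w⁻¹)‖`.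
`x = w t⁻¹`, `x⁻¹ = t w⁻¹`. With `κ₀ = min_{T₀} kk > 0` (and B03) `kk x ≥ κ₀ kk w/4`,
`kk x ≤ 4 kk w/κ₀`; `‖pt x - pt w‖ ≤ K₀ kk w` (B03, last item, with `δ = t⁻¹`;
`‖1 - conj (pt w⁻¹) pt t⁻¹‖ ≥ 1 - ‖pt t⁻¹‖`). `I = circ ∩ closedBall u (τ/2)`,
`S₁ = circ ∩ act x⁻¹ ⁻¹' I`. B15: `lam S₁ ≥ (kk x/4) lam I ≥ kk x τ/32` (B05 (3)), and, since
`‖ξ - pt x⁻¹‖ ≥ c - τ/2 ≥ c/2` on `I`, `S₁ ⊆ closedBall (pt x) (2 kk x/c)`. So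
`S₁ ⊆ closedBall η r`, `r = K kk w` with `K` independent of `n` (`K ≥ 1`). N02: `ν S₁ ≤ C₁ kk x τ^2 ≤ 32 C₁ τ lam S₁ ≤
(δ/2) lam S₁`. `S = S₁ \ {δ ≤ f}`: `δ lam (S₁ ∩ {δ ≤ f}) ≤ ν S₁`, so `lam S ≥ lam S₁/2 ≥ (κ₀ τ/256) kk w
≥ c' lam (closedBall η r)` with `c' = κ₀ τ/(256 K)` (B05 (4)). `S` is disjoint from `N`, `r → 0`. B16:
`lam N = 0`, a contradiction. (`N ⊆ circ` because `typ ⊆ circ`.) -/
def N03_stmt : Prop := ∀ (Γ : Type) [Group Γ] (A : DiscRep Γ) (W : Walk Γ) (ν : Measure ℂ),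
  StdD A W ν → ν ≪ lam → (∃ C : ℝ, 0 < C ∧ ∀ x, W.hit 1 x ≤ ENNReal.ofReal (C * A.kk x)) →
  A.Cocompact

/-! ## Z: assembly -/

/-- Z01. The stationary measure is singular. Uses HUB, REG, M09, N03, K12, SGG.GEX.
Proof. By M09 we may assume `ν ≪ lam`. HUB and N03: `A` is cocompact, so `Std A W ν`. REG gives
`RegDens ν f C a`. `φ : Γ →* Multiplicative ℝ`, `φ ≠ 1`, gives the additive function
`γ ↦ Multiplicative.toAdd (φ γ)`, and GEX gives `F, ψ, C`, not constant; `EqHol A F ψ (max C 1)`;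
K12: `F z = F 0` on the disc, a contradiction. -/
def Z01_stmt : Prop := ∀ (Γ : Type) [Group Γ] (A : DiscRep Γ) (W : Walk Γ) (ν : Measure ℂ),
  StdD A W ν → (∃ φ : Γ →* Multiplicative ℝ, φ ≠ 1) → Measure.MutuallySingular ν lam

/-- Z02. Normalisation. Uses S07, S13, S19, S32, M03.
Proof. S07 gives `NoFin`, hence `NonEl`, so `ν` has no atoms (M03). S19 gives `p, q`, S13 gives `A'`;
`ν' = ν.map (mob p q)`; S32. -/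
def Z02_stmt : Prop := ∀ (Γ : Type) [Group Γ], TF Γ → NonAb Γ → ∀ (W : Walk Γ) (A : DiscRep Γ)
  (ν : Measure ℂ), A.Discrete → Stat A W ν →
  ∃ (A' : DiscRep Γ) (ν' : Measure ℂ), A'.Discrete ∧ Stat A' W ν' ∧ Nrm ν' ∧
    ∀ B' : Set ℂ, MeasurableSet B' → ν' B' = 1 →
      ∃ B : Set ℂ, MeasurableSet B ∧ ν B = 1 ∧ dimH B ≤ dimH B'

/-- Z03. Unbounded representations. Uses S07, S18, S20, S27, S31, M03.
Proof. By S27 there is `ε > 0` with `ε ≤ |ell_k / D k|` for `U`-frequently many, hence (ultrafilter)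
`U`-eventually all `k`. `0 ≤ ell_k` (S20 applied to `h x = Phi νk (a x) (b x) + 1 ≥ 0`, S18). So
eventually `ell_k ≥ ε D k > 2 log |S|`, `ell_k > 0`, and S31 with `t = 1/2` applies (no atoms: S07, M03). -/
def Z03_stmt : Prop := ∀ (Γ : Type) [Group Γ], TF Γ → NonAb Γ → ∀ (W : Walk Γ) (U : Ultrafilter ℕ)
  (Ak : ℕ → DiscRep Γ) (νk : ℕ → Measure ℂ) (D : ℕ → ℝ), (∀ k, (Ak k).Discrete) →
  (∀ k, Stat (Ak k) W (νk k)) → (∀ k, Nrm (νk k)) → Tendsto D U atTop →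
  (∀ k, (∀ t ∈ W.S, (Ak k).L t ≤ D k) ∧ ∃ s ∈ W.S, (Ak k).L s = D k) →
  ∀ᶠ k in (U : Filter ℕ), ∃ B : Set ℂ, MeasurableSet B ∧ 0 < νk k B ∧ dimH B ≤ ENNReal.ofReal (1 / 2)

/-- Z04. Bounded representations. Uses S02, S07, S11, S12, S14, S15, S16, Z01, M03, M04, B14, D11, D12.
Proof. Everything below is for `U`-eventually all `k` (those with the bound); `‖a_k s‖ ≤ e^(D₁/2)`. S11: `c`, `dev_k g ≥ c` for `g ≠ 1`. `‖a_k g‖ ≤ K g`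
(`W.gen`, S02). S14: the limit `A`; `dev` is continuous in the coefficients, so `dev g ≥ c` for
`g ≠ 1`, and by S12, S02 `A` is discrete; S07: `NonEl`; `Γ` is infinite (B14). S15: the limit `ν`,
`StdD A W ν`. Z01: `ν ⟂ lam`. M03, M04: `ρ₀ ≤ 1`, `ν (closedBall x ρ₀) ≤ 1/16` for all `x`;
`ρ = ρ₀/2`; S16 (3) with `κ = ε = 1/16`. `κ = e^(-D₁) ≤ kk_k s` (S02). `N τ` = the number of S12 for
`K = 1/√τ` (`τ ≤ kk γ ↔ ‖a γ‖ ≤ 1/√τ`). D11: `ε₀`. D12 for `ν, ε₀`: open balls with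
`7/8 < ν (⋃ ball)`, `m`. D11: `δ` for this `m`. S16 (2) with the difference: eventually
`7/8 ≤ νk (⋃ ball) ≤ νk (⋃ closedBall)`. D11 for `Ak k`, `νk k`. -/
def Z04_stmt : Prop := ∀ (Γ : Type) [Group Γ], TF Γ → NonAb Γ →
  (∃ φ : Γ →* Multiplicative ℝ, φ ≠ 1) → ∀ (W : Walk Γ) (U : Ultrafilter ℕ)
  (Ak : ℕ → DiscRep Γ) (νk : ℕ → Measure ℂ) (D₁ : ℝ), (∀ k, (Ak k).Discrete) →
  (∀ k, Stat (Ak k) W (νk k)) → (∀ᶠ k in (U : Filter ℕ), ∀ t ∈ W.S, (Ak k).L t ≤ D₁) →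
  ∃ δ : ℝ, 0 ≤ δ ∧ δ < 1 ∧ ∀ᶠ k in (U : Filter ℕ), ∃ B : Set ℂ, MeasurableSet B ∧ 0 < νk k B ∧
    dimH B ≤ ENNReal.ofReal δ

/-! MAIN2_stmt is in Pool/Agent/helper68/SG/SpecT.lean.
MAIN2. The working form of the theorem. Uses Z02, Z03, Z04, S07, S33, M07.
Proof. Suppose not. For every `k` let `δ_k = 1 - 1/(k+2)`; there are `A_k` discrete and `ν_k` stationary
such that no Borel `B` with `ν_k Bᶜ = 0` has `dimH B ≤ δ_k`. Z02: replace them by normalised ones,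
for which no Borel `B` with `ν_k B = 1` has `dimH B ≤ δ_k`. By S33 (uniqueness: M07 with `StdD`, `NonEl`
from S07) no Borel `B` with `ν_k B > 0` has `dimH B ≤ δ_k`. `U = hyperfilter ℕ`, `D k = max_{s∈S} L_k s`
(`S` is nonempty because the weights have sum `1`). If `D → ∞` along `U` use Z03 (`1/2 ≤ δ_k`).
Otherwise there is `D₁` with `D k < D₁` for `U`-eventually all `k` (ultrafilter), and Z04 gives
`δ < 1`; eventually `δ ≤ δ_k` (`hyperfilter ≤ atTop`). Contradiction in both cases. -/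

end Pool.Agent.SG
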