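import Pool.Agent.helper3.SG.SpecN
import Pool.Agent.helper17.SG.Glue

set_option autoImplicit false

open MeasureTheory Set Metric Filter Topology
open scoped ENNReal NNReal ComplexConjugate

namespace Pool.Agent.SG

/-- Z01 from the upper bound for the hitting probabilities (R04), N03, M09 and the cocompact case. -/
theorem Z01_of (hM9 : M09_stmt) (h4 : R04_stmt) (hN3 : N03_stmt) (hS : SING_stmt) : Z01_stmt := by
  intro Γ _ A W ν hD hφ
  rcases hM9 Γ A W ν hD with hac | hs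
  swap
  · exact hs
  obtain ⟨C, hC, H⟩ := h4 Γ A W ν hD hac
  have hcoc : A.Cocompact := hN3 Γ A W ν hD hac ⟨C, by linarith, H⟩
  exact hS Γ A W ν hφ ⟨hD.toStat, hD.disc, hcoc⟩

/-- Z01 from the modules. -/
theorem Z01 (hB03 : B03_stmt) (hB12 : B12_stmt) (hM9 : M09_stmt) (h4 : R04_stmt) (h7 : R07_stmt)
    (h9 : R09_stmt) (h10 : R10_stmt) (hH : H19_stmt) (hK : K12_stmt) (hG : SGG.GEX_stmt)
    (hN3 : N03_stmt) : Z01_stmt :=
  Z01_of hM9 h4 hN3 (SING hB12 hM9 (COMP hB03 hB12 h4 h7 h9 h10) hH hK hG)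

end Pool.Agent.SG
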